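import Pool.Agent.H332Z.EA.Main

set_option autoImplicit false

namespace H332Z.EA

open Set Filter Topology

theorem fix_of_ram {G : Type} [Group G] {d : G → G → ℝ} (hd : IsBI d)
    (hR : ∀ (A : Finset G) (n k : ℕ), Ram d A (1 / ((n : ℝ) + 1)) k)
    (X : Type*) [TopologicalSpace X] [CompactSpace X] [T2Space X] [Nonempty X] [MulAction G X]
    (H : ∀ (g : G) (x : X) (U : Set X), IsOpen U → g • x ∈ U →
      ∃ ε > (0 : ℝ), ∃ V : Set X, IsOpen V ∧ x ∈ V ∧
        ∀ h : G, d g h < ε → ∀ y ∈ V, h • y ∈ U) :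
    ∃ x : X, ∀ g : G, g • x = x := by
  classical
  by_contra hcon
  push Not at hcon
  choose g hg using hcon
  have key : ∀ x : X, ∃ (W V : Set X) (ε : ℝ), 0 < ε ∧ IsOpen V ∧ x ∈ V ∧
      (∀ h : G, d 1 h < ε → ∀ y ∈ V, h • y ∈ W) ∧ ∀ y ∈ W, g x • y ∉ W := by
    intro x
    obtain ⟨U', U, hU', hU, hx', hx, hdis⟩ := t2_separation (hg x)
    obtain ⟨ε', hε', V', hV', hxV', hV'2⟩ := H (g x) x U' hU' hx'
    obtain ⟨ε, hε, V, hV, hxV, hV2⟩ := H 1 x (U ∩ V') (hU.inter hV') (by simpa using ⟨hx, hxV'⟩)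
    refine ⟨U ∩ V', V, ε, hε, hV, hxV, hV2, fun y hy hy2 => ?_⟩
    have h1 := hV'2 (g x) (by rw [hd.refl]; exact hε') y hy.2
    exact Set.disjoint_left.1 hdis h1 hy2.1
  choose W V ε hε hV hxV hVW hW using key
  obtain ⟨t, ht⟩ := isCompact_univ.elim_finite_subcover V hV
    (fun x _ => mem_iUnion.2 ⟨x, hxV x⟩)
  obtain ⟨x0⟩ := ‹Nonempty X›
  have hcol : ∀ y : X, ∃ x : t, y ∈ V x := by
    intro y
    have := ht (mem_univ y)
    simp only [mem_iUnion] at this
    obtain ⟨x, hx, hy⟩ := this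
    exact ⟨⟨x, hx⟩, hy⟩
  choose col hcol using hcol
  have htne : t.Nonempty := ⟨(col x0).1, (col x0).2⟩
  obtain ⟨k, hk⟩ : ∃ k, Fintype.card t = k + 1 := by
    have : 0 < Fintype.card t := by
      rw [Fintype.card_coe]; exact htne.card_pos
    exact ⟨Fintype.card t - 1, by omega⟩
  let e : t ≃ Fin (k + 1) := Fintype.equivFinOfCardEq hk
  obtain ⟨n, hn⟩ := exists_nat_one_div_lt
    (show (0 : ℝ) < t.inf' htne ε from (Finset.lt_inf'_iff _).2 (fun x _ => hε x))
  obtain ⟨B, hB⟩ := hR (insert 1 (t.image g)) n k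
  obtain ⟨i, h, hh⟩ := hB (fun b => e (col ((b : G) • x0)))
  set x : t := e.symm i with hx
  have hall : ∀ a ∈ insert 1 (t.image g), (a * h) • x0 ∈ W x := by
    intro a ha
    obtain ⟨b, hb1, hb2⟩ := hh a ha
    have h1 : col ((b : G) • x0) = x := by rw [hx, ← hb1]; simp
    have h2 := hcol ((b : G) • x0)
    rw [h1] at h2
    have h3 : d 1 (a * h * (b : G)⁻¹) < ε x := by
      rw [← hd.right _ _ (b : G), one_mul, inv_mul_cancel_right, hd.symm]
      exact hb2.trans (hn.trans_le (Finset.inf'_le _ x.2))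
    have h4 := hVW x _ h3 _ h2
    rwa [smul_smul, inv_mul_cancel_right] at h4
  have h1 := hall 1 (Finset.mem_insert_self _ _)
  have h2 := hall (g x) (Finset.mem_insert_of_mem (Finset.mem_image_of_mem _ x.2))
  rw [one_mul] at h1
  rw [mul_smul] at h2
  exact hW x _ h1 h2

theorem IsBI.min_one {G : Type} [Group G] {d : G → G → ℝ} (hd : IsBI d) :
    IsBI (fun g h => min (d g h) 1) where
  refl g := by simp [hd.refl]
  symm g h := by rw [hd.symm]
  tri g h k := by
    have h1 := hd.tri g h k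
    have h2 := hd.nonneg g h
    have h3 := hd.nonneg h k
    simp only [min_def]
    split_ifs <;> linarith
  left g h k := by rw [hd.left]
  right g h k := by rw [hd.right]

/-- the space of bi-invariant pseudometrics bounded by one -/
abbrev PM1 : Type := {d : FreeGroup ℕ → FreeGroup ℕ → ℝ | IsBI d ∧ ∀ g h, d g h ≤ 1}

instance : BaireSpace PM1 := by
  have h : IsClosed {d : FreeGroup ℕ → FreeGroup ℕ → ℝ | IsBI d ∧ ∀ g h, d g h ≤ 1} := by
    have h2 : IsClosed {d : FreeGroup ℕ → FreeGroup ℕ → ℝ | ∀ g h, d g h ≤ 1} := by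
      simp only [ofPred_forall]
      exact isClosed_iInter fun g => isClosed_iInter fun h =>
        isClosed_le (by fun_prop) (by fun_prop)
    exact isClosed_isBI.inter h2
  have : PolishSpace PM1 := h.polishSpace
  infer_instance

theorem dense_ram1 (A : Finset (FreeGroup ℕ)) {ε : ℝ} (hε : 0 < ε) (k : ℕ) :
    Dense {p : PM1 | Ram p.1 A ε k} := by
  intro d
  choose p hp1 hp2 hp3 using fun F => exists_ram d.2.1 F A hε k
  refine mem_closure_of_tendsto (b := (atTop : Filter (Finset (FreeGroup ℕ))))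
    (f := fun F => (⟨fun g h => min (p F g h) 1, (hp1 F).min_one, fun _ _ => min_le_right _ _⟩ : PM1))
    ?_ (Eventually.of_forall fun F => ?_)
  · rw [tendsto_subtype_rng, tendsto_pi_nhds]
    intro g
    rw [tendsto_pi_nhds]
    intro h
    refine tendsto_const_nhds.congr' ?_
    filter_upwards [eventually_ge_atTop ({g} : Finset (FreeGroup ℕ)),
      eventually_ge_atTop ({h} : Finset (FreeGroup ℕ))] with F hg hh
    rw [hp2 F g (hg (Finset.mem_singleton_self g)) h (hh (Finset.mem_singleton_self h))]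
    exact (min_eq_left (d.2.2 g h)).symm
  · obtain ⟨B, hB⟩ := hp3 F
    refine ⟨B, fun c => ?_⟩
    obtain ⟨i, h, hh⟩ := hB c
    refine ⟨i, h, fun a ha => ?_⟩
    obtain ⟨b, hb1, hb2⟩ := hh a ha
    exact ⟨b, hb1, (min_le_left _ _).trans_lt hb2⟩

theorem dense_sep1 (g h : FreeGroup ℕ) : Dense {p : PM1 | g ≠ h → p.1 g h ≠ 0} := by
  classical
  intro d
  have hd : IsBI d.1 := d.2.1
  have hp : ∀ n : ℕ, IsBI (fun x y => d.1 x y + (1 / ((n : ℝ) + 1)) * if x = y then 0 else 1) := by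
    intro n
    have hn : (0 : ℝ) < 1 / ((n : ℝ) + 1) := by positivity
    refine ⟨fun x => by simp [hd.refl], fun x y => by simp only [hd.symm x y, eq_comm],
      fun x y z => ?_, fun x y z => by simp only [hd.left, mul_right_inj],
      fun x y z => by simp only [hd.right, mul_left_inj]⟩
    have h1 := hd.tri x y z
    have h2 : (if x = z then (0 : ℝ) else 1) ≤ (if x = y then 0 else 1) + (if y = z then 0 else 1) := by
      by_cases h3 : x = y
      · subst h3; simp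
      · rw [if_neg h3]
        split_ifs <;> norm_num
    have h3 := mul_le_mul_of_nonneg_left h2 hn.le
    linarith
  refine mem_closure_of_tendsto (b := (atTop : Filter ℕ))
    (f := fun n => (⟨_, (hp n).min_one, fun _ _ => min_le_right _ _⟩ : PM1)) ?_
    (Eventually.of_forall fun n hgh => ?_)
  · rw [tendsto_subtype_rng, tendsto_pi_nhds]
    intro x
    rw [tendsto_pi_nhds]
    intro y
    have h1 := (tendsto_one_div_add_atTop_nhds_zero_nat (𝕜 := ℝ)).mul_const
      (if x = y then (0 : ℝ) else 1)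
    have h2 := (h1.const_add (d.1 x y)).min (tendsto_const_nhds (x := (1 : ℝ)))
    rw [zero_mul, add_zero, min_eq_left (d.2.2 x y)] at h2
    exact h2
  · have h1 := hd.nonneg g h
    have hn : (0 : ℝ) < 1 / ((n : ℝ) + 1) := by positivity
    change min (d.1 g h + (1 / ((n : ℝ) + 1)) * (if g = h then 0 else 1)) 1 ≠ 0
    rw [if_neg hgh]
    exact (lt_min (by linarith) one_pos).ne'

/-- Every comeager set of bi-invariant metrics bounded by one contains a metric satisfying all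
Ramsey conditions. -/
theorem exists_ram_of_residual (P : (FreeGroup ℕ → FreeGroup ℕ → ℝ) → Prop)
    (hP : ∀ d, P d ↔ (IsBI d ∧ ∀ g h, d g h ≤ 1) ∧ ∀ g h, g ≠ h → d g h ≠ 0)
    (s : Set {d // P d}) (hs : s ∈ residual {d // P d}) :
    ∃ d ∈ s, ∀ (A : Finset (FreeGroup ℕ)) (n k : ℕ), Ram d.1 A (1 / ((n : ℝ) + 1)) k := by
  obtain ⟨S, hSo, hSd, hSc, hSs⟩ := mem_residual_iff.1 hs
  have hop : ∀ g h : FreeGroup ℕ, IsOpen {p : PM1 | g ≠ h → p.1 g h ≠ 0} := by
    intro g h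
    by_cases hgh : g = h
    · simp [hgh]
    · simp only [ne_eq, hgh, not_false_eq_true, forall_true_left]
      exact isOpen_ne_fun ((continuous_apply h).comp ((continuous_apply g).comp
        continuous_subtype_val)) continuous_const
  have hsep : Dense (⋂ x : FreeGroup ℕ × FreeGroup ℕ, {p : PM1 | x.1 ≠ x.2 → p.1 x.1 x.2 ≠ 0}) :=
    dense_iInter_of_isOpen (fun x => hop _ _) (fun x => dense_sep1 _ _)
  have hU : ∀ t : S, ∃ U : Set (FreeGroup ℕ → FreeGroup ℕ → ℝ), IsOpen U ∧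
      Subtype.val ⁻¹' U = t.1 := fun t => isOpen_induced_iff.1 (hSo t.1 t.2)
  choose U hUo hUt using hU
  have : Countable S := hSc.to_subtype
  have hUd : ∀ t : S, Dense (Subtype.val ⁻¹' U t : Set PM1) := by
    intro t
    rw [dense_iff_inter_open]
    rintro V hV hVne
    obtain ⟨V', hV', rfl⟩ := isOpen_induced_iff.1 hV
    obtain ⟨p, hp1, hp2⟩ := dense_iff_inter_open.1 hsep _ hV hVne
    simp only [mem_iInter, mem_ofPred_eq] at hp2
    obtain ⟨q, hq1, hq2⟩ := dense_iff_inter_open.1 (hSd t.1 t.2) (Subtype.val ⁻¹' V')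
      (hV'.preimage continuous_subtype_val)
      ⟨⟨p.1, (hP _).2 ⟨p.2, fun g h => hp2 (g, h)⟩⟩, hp1⟩
    rw [← hUt t] at hq2
    exact ⟨⟨q.1, ((hP _).1 q.2).1⟩, hq1, hq2⟩
  have h1 : (⋂ x : FreeGroup ℕ × FreeGroup ℕ, {p : PM1 | x.1 ≠ x.2 → p.1 x.1 x.2 ≠ 0}) ∈
      residual PM1 := (countable_iInter_mem).2 fun x =>
    residual_of_dense_open (hop _ _) (dense_sep1 _ _)
  have h2 : (⋂ x : Finset (FreeGroup ℕ) × ℕ × ℕ,
      {p : PM1 | Ram p.1 x.1 (1 / ((x.2.1 : ℝ) + 1)) x.2.2}) ∈ residual PM1 :=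
    (countable_iInter_mem).2 fun x => residual_of_dense_open
      ((isOpen_ram _ _ _).preimage continuous_subtype_val) (dense_ram1 _ (by positivity) _)
  have h3 : (⋂ t : S, (Subtype.val ⁻¹' U t : Set PM1)) ∈ residual PM1 :=
    (countable_iInter_mem).2 fun t => residual_of_dense_open
      ((hUo t).preimage continuous_subtype_val) (hUd t)
  have : Nonempty PM1 := ⟨⟨fun _ _ => 0, ⟨fun _ => rfl, fun _ _ => rfl, fun _ _ _ => by simp,
    fun _ _ _ => rfl, fun _ _ _ => rfl⟩, fun _ _ => zero_le_one⟩⟩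
  obtain ⟨p, ⟨hp1, hp2⟩, hp3⟩ := (dense_of_mem_residual (inter_mem (inter_mem h1 h2) h3)).nonempty
  simp only [mem_iInter, mem_ofPred_eq] at hp1 hp2 hp3
  refine ⟨⟨p.1, (hP _).2 ⟨p.2, fun g h => hp1 (g, h)⟩⟩, hSs ?_, fun A n k => hp2 (A, n, k)⟩
  intro t ht
  have h4 := hUt ⟨t, ht⟩
  change _ = t at h4
  rw [← h4]
  exact hp3 ⟨t, ht⟩

theorem fix_of_dense {d : FreeGroup ℕ → FreeGroup ℕ → ℝ} (hd : IsBI d)
    (hR : ∀ (A : Finset (FreeGroup ℕ)) (n k : ℕ), Ram d A (1 / ((n : ℝ) + 1)) k)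
    {G : Type*} [Group G] [MetricSpace G] (φ : FreeGroup ℕ →* G) (hφ : DenseRange φ)
    (hφd : ∀ g h, dist (φ g) (φ h) = d g h)
    (X : Type*) [TopologicalSpace X] [CompactSpace X] [T2Space X] [Nonempty X] [MulAction G X]
    [ContinuousSMul G X] : ∃ x : X, ∀ g : G, g • x = x := by
  let : MulAction (FreeGroup ℕ) X := MulAction.compHom X φ
  have hsm : ∀ (g : FreeGroup ℕ) (x : X), g • x = φ g • x := fun _ _ => rfl
  obtain ⟨x, hx⟩ := fix_of_ram hd hR X (by
    intro g x U hU hgx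
    have h1 := ((continuous_smul (M := G) (X := X)).isOpen_preimage U hU).mem_nhds
      (x := (φ g, x)) hgx
    rw [mem_nhds_prod_iff] at h1
    obtain ⟨u, hu, v, hv, huv⟩ := h1
    obtain ⟨δ, hδ, hδu⟩ := Metric.mem_nhds_iff.1 hu
    obtain ⟨V, hVv, hV, hfV⟩ := mem_nhds_iff.1 hv
    refine ⟨δ, hδ, V, hV, hfV, fun h hh y hy => ?_⟩
    have h2 : (φ h, y) ∈ u ×ˢ v := by
      refine ⟨hδu ?_, hVv hy⟩
      rw [Metric.mem_ball, dist_comm, hφd]
      exact hh
    exact huv h2)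
  refine ⟨x, fun g => ?_⟩
  exact hφ.induction_on (p := fun g => g • x = x) g (isClosed_eq (by fun_prop) (by fun_prop)) hx

end H332Z.EA
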