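import Mathlib

set_option autoImplicit false

namespace H332Z.EA

open Finset

theorem pair_sq {α : Type*} [Fintype α] (f : α → ℝ) :
    ∑ x, ∑ y, (f x - f y) ^ 2 =
      2 * ((Fintype.card α : ℝ) * ∑ x, f x ^ 2 - (∑ x, f x) ^ 2) := by
  have h1 : ∀ x, ∑ y, (f x - f y) ^ 2 =
      (Fintype.card α : ℝ) * f x ^ 2 - 2 * f x * (∑ y, f y) + ∑ y, f y ^ 2 := by
    intro x
    have : ∀ y, (f x - f y) ^ 2 = f x ^ 2 - 2 * f x * f y + f y ^ 2 := fun y => by ring
    simp only [this, sum_add_distrib, sum_sub_distrib, sum_const, card_univ, nsmul_eq_mul,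
      ← mul_sum]
  simp only [h1, sum_add_distrib, sum_sub_distrib, sum_const, card_univ, nsmul_eq_mul,
    ← mul_sum, ← sum_mul]
  ring

theorem var_le {Q : Type} [Fintype Q] [DecidableEq Q] : ∀ (n : ℕ) (f : (Fin n → Q) → ℝ),
    (∀ x y (i : Fin n), (∀ j, j ≠ i → x j = y j) → |f x - f y| ≤ 1) →
    ((Fintype.card Q : ℝ) ^ n) * ∑ x, f x ^ 2 - (∑ x, f x) ^ 2 ≤
      n * ((Fintype.card Q : ℝ) ^ n) ^ 2 := by
  intro n
  induction n with
  | zero =>
    intro f _
    simp
  | succ n ih =>
    intro f hf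
    set q : ℝ := (Fintype.card Q : ℝ) with hq
    set N : ℝ := q ^ n with hN
    have hq0 : 0 ≤ q := by positivity
    have hN0 : 0 ≤ N := by positivity
    let F : Q → (Fin n → Q) → ℝ := fun a x => f (Fin.cons a x)
    have hsum : ∀ g : (Fin (n + 1) → Q) → ℝ, ∑ x, g x = ∑ a : Q, ∑ x : Fin n → Q, g (Fin.cons a x) := by
      intro g
      rw [← Fintype.sum_prod_type', ← (Fin.consEquiv (fun _ : Fin (n + 1) => Q)).sum_comp]
      rfl
    have hF : ∀ a, N * ∑ x, F a x ^ 2 - (∑ x, F a x) ^ 2 ≤ n * N ^ 2 := by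
      intro a
      apply ih
      intro x y i hxy
      apply hf _ _ i.succ
      intro j hj
      refine Fin.cases ?_ (fun j hj => ?_) j hj
      · intro _; simp
      · simp only [Fin.cons_succ]
        exact hxy j (fun h => hj (by rw [h]))
    have hT : ∀ a b, ((∑ x, F a x) - (∑ x, F b x)) ^ 2 ≤ N ^ 2 := by
      intro a b
      apply sq_le_sq'
      · rw [← sum_sub_distrib]
        have : ∀ x : Fin n → Q, (-1 : ℝ) ≤ F a x - F b x := by
          intro x
          have := hf (Fin.cons a x) (Fin.cons b x) 0 (fun j hj => by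
            obtain ⟨j, rfl⟩ := Fin.exists_succ_eq.2 hj
            simp)
          exact (abs_le.1 this).1
        have h2 := sum_le_sum (s := univ) (fun x _ => this x)
        simpa [hN, hq] using h2
      · rw [← sum_sub_distrib]
        have : ∀ x : Fin n → Q, F a x - F b x ≤ 1 := by
          intro x
          have := hf (Fin.cons a x) (Fin.cons b x) 0 (fun j hj => by
            obtain ⟨j, rfl⟩ := Fin.exists_succ_eq.2 hj
            simp)
          exact (abs_le.1 this).2
        have h2 := sum_le_sum (s := univ) (fun x _ => this x)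
        simpa [hN, hq] using h2
    have h3 := pair_sq (fun a => ∑ x, F a x)
    have h4 : ∑ a, ∑ b, ((∑ x, F a x) - (∑ x, F b x)) ^ 2 ≤ q * (q * N ^ 2) := by
      have := sum_le_sum (s := univ) (fun a _ => sum_le_sum (s := univ) (fun b _ => hT a b))
      simpa [hq] using this
    have h5 : N * ∑ a, ∑ x, F a x ^ 2 - ∑ a, (∑ x, F a x) ^ 2 ≤ q * (n * N ^ 2) := by
      have := sum_le_sum (s := univ) (fun a _ => hF a)
      rw [sum_sub_distrib, ← mul_sum] at this
      simpa [hq] using this
    rw [hsum (fun x => f x ^ 2), hsum f, pow_succ q n, ← hN]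
    change N * q * ∑ a, ∑ x, F a x ^ 2 - (∑ a, ∑ x, F a x) ^ 2 ≤ _
    rw [← hq] at h3
    have h6 := mul_le_mul_of_nonneg_left h5 hq0
    push_cast
    have h7 : 0 ≤ q * (q * N ^ 2) := by positivity
    nlinarith

/-- Concentration in the Hamming cube, in Ramsey form. -/
theorem conc (Q : Type) [Fintype Q] [DecidableEq Q] [Nonempty Q] (ι : Type) [Fintype ι]
    (k : ℕ) (δ : ℝ) (hδ : 0 < δ) :
    ∃ n : ℕ, 0 < n ∧ ∀ (c : (Fin n → Q) → Fin (k + 1)) (π : ι → Equiv.Perm (Fin n → Q)),
      ∃ i h, ∀ a, ∃ b, c b = i ∧ (hammingDist (π a h) b : ℝ) ≤ δ * n := by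
  classical
  obtain ⟨n, hn⟩ := exists_nat_gt (2 * (k + 1 : ℝ) * Fintype.card ι / δ ^ 2)
  have hn0 : 0 < n := by
    have : (0 : ℝ) ≤ 2 * (k + 1 : ℝ) * Fintype.card ι / δ ^ 2 := by positivity
    exact_mod_cast this.trans_lt hn
  refine ⟨n, hn0, fun c π => ?_⟩
  set N : ℕ := Fintype.card (Fin n → Q) with hN
  have hNpos : 0 < N := Fintype.card_pos
  obtain ⟨i, -, hi⟩ : ∃ i ∈ (univ : Finset (Fin (k + 1))),
      (N : ℝ) / (k + 1) ≤ ((univ.filter (fun x => c x = i)).card : ℝ) := by
    by_contra hcon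
    push Not at hcon
    have h1 := card_eq_sum_card_fiberwise (s := (univ : Finset (Fin n → Q)))
      (t := (univ : Finset (Fin (k + 1)))) (f := c) (fun x _ => by simp)
    have h2 : (N : ℝ) = ∑ i : Fin (k + 1), ((univ.filter (fun x => c x = i)).card : ℝ) := by
      rw [hN, ← card_univ, h1]; push_cast; rfl
    have h3 := sum_lt_sum_of_nonempty (s := (univ : Finset (Fin (k + 1)))) univ_nonempty hcon
    rw [← h2] at h3
    simp only [sum_const, card_univ, Fintype.card_fin, nsmul_eq_mul] at h3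
    push_cast at h3
    rw [mul_div_cancel₀ _ (by positivity)] at h3
    exact lt_irrefl _ h3
  set S := univ.filter (fun x => c x = i) with hS
  have hSne : S.Nonempty := by
    rw [← card_pos]
    have : (0 : ℝ) < (N : ℝ) / (k + 1) := by positivity
    exact_mod_cast this.trans_le hi
  let f : (Fin n → Q) → ℝ := fun x => S.inf' hSne (fun y => (hammingDist x y : ℝ))
  have hf1 : ∀ x y, f x ≤ f y + hammingDist x y := by
    intro x y
    obtain ⟨z, hz, hz2⟩ := exists_mem_eq_inf' hSne (fun z => (hammingDist y z : ℝ))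
    have h1 : f x ≤ hammingDist x z := inf'_le _ hz
    have h2 : (hammingDist x z : ℝ) ≤ hammingDist x y + hammingDist y z := by
      exact_mod_cast hammingDist_triangle x y z
    have h3 : f y = hammingDist y z := hz2
    linarith
  have hf2 : ∀ x y (j : Fin n), (∀ l, l ≠ j → x l = y l) → |f x - f y| ≤ 1 := by
    intro x y j hxy
    have h1 : hammingDist x y ≤ 1 := by
      unfold hammingDist
      calc _ ≤ ({j} : Finset (Fin n)).card := by
            apply card_le_card
            intro l hl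
            simp only [mem_filter, mem_univ, true_and] at hl
            simp only [mem_singleton]
            by_contra h
            exact hl (hxy l h)
        _ = 1 := by simp
    have h2 : (hammingDist x y : ℝ) ≤ 1 := by exact_mod_cast h1
    have h3 := hf1 x y
    have h4 := hf1 y x
    rw [hammingDist_comm y x] at h4
    rw [abs_le]; constructor <;> linarith
  have hf0 : ∀ y ∈ S, f y ≤ 0 := by
    intro y hy
    have h1 : f y ≤ hammingDist y y := inf'_le _ hy
    simpa using h1
  have hv := var_le n f hf2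
  have hp := pair_sq f
  have hNq : (N : ℝ) = (Fintype.card Q : ℝ) ^ n := by rw [hN]; simp
  rw [← hN] at hp
  rw [← hNq] at hv
  set Bad := univ.filter (fun x => δ * n < f x) with hBad
  have hb : (Bad.card : ℝ) * (S.card * (δ * n) ^ 2) ≤ 2 * (n * (N : ℝ) ^ 2) := by
    calc (Bad.card : ℝ) * (S.card * (δ * n) ^ 2) = ∑ x ∈ Bad, ∑ y ∈ S, (δ * n) ^ 2 := by simp
      _ ≤ ∑ x ∈ Bad, ∑ y ∈ S, (f x - f y) ^ 2 := by
          refine sum_le_sum (fun x hx => sum_le_sum (fun y hy => ?_))
          have h1 : δ * n < f x := (mem_filter.1 hx).2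
          have h2 := hf0 y hy
          have h3 : 0 ≤ δ * n := by positivity
          exact pow_le_pow_left₀ h3 (by linarith) 2
      _ ≤ ∑ x ∈ Bad, ∑ y, (f x - f y) ^ 2 :=
          sum_le_sum (fun x _ => sum_le_sum_of_subset_of_nonneg (subset_univ _)
            (fun _ _ _ => sq_nonneg _))
      _ ≤ ∑ x, ∑ y, (f x - f y) ^ 2 :=
          sum_le_sum_of_subset_of_nonneg (subset_univ _)
            (fun _ _ _ => sum_nonneg (fun _ _ => sq_nonneg _))
      _ ≤ _ := by rw [hp]; linarith
  have hb2 : Fintype.card ι * Bad.card < N := by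
    have hnR : (0 : ℝ) < n := by exact_mod_cast hn0
    have hNR : (0 : ℝ) < N := by exact_mod_cast hNpos
    have h1 : (Bad.card : ℝ) * ((N : ℝ) / (k + 1) * (δ * n) ^ 2) ≤ 2 * (n * (N : ℝ) ^ 2) := by
      refine le_trans ?_ hb
      gcongr
    have h2 : (Bad.card : ℝ) * (δ ^ 2 * n) ≤ 2 * (k + 1) * N := by
      have h3 : (Bad.card : ℝ) * ((N : ℝ) / (k + 1) * (δ * n) ^ 2) =
          ((Bad.card : ℝ) * (δ ^ 2 * n)) * (n * N / (k + 1)) := by field_simp
      have h4 : 2 * (n * (N : ℝ) ^ 2) = (2 * (k + 1) * N) * (n * N / (k + 1)) := by field_simp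
      rw [h3, h4] at h1
      exact le_of_mul_le_mul_right h1 (by positivity)
    rw [div_lt_iff₀ (by positivity)] at hn
    have h5 : ((Fintype.card ι : ℝ) * Bad.card) * (δ ^ 2 * n) < N * (δ ^ 2 * n) := by
      have h6 : (Fintype.card ι : ℝ) * ((Bad.card : ℝ) * (δ ^ 2 * n)) ≤
          Fintype.card ι * (2 * (k + 1) * N) := by gcongr
      have h7 := mul_lt_mul_of_pos_left hn hNR
      nlinarith
    have h8 := lt_of_mul_lt_mul_right h5 (by positivity)
    exact_mod_cast h8
  obtain ⟨h, hh⟩ : ∃ h, h ∉ (univ : Finset ι).biUnion (fun a => Bad.image (π a).symm) := by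
    by_contra hcon
    push Not at hcon
    have h1 : (univ : Finset (Fin n → Q)) ⊆ _ := fun x _ => hcon x
    have h2 := (card_le_card h1).trans card_biUnion_le
    have h3 : ∑ a : ι, (Bad.image (π a).symm).card ≤ ∑ a : ι, Bad.card :=
      sum_le_sum (fun a _ => card_image_le)
    simp only [sum_const, card_univ, smul_eq_mul] at h3
    rw [card_univ, ← hN] at h2
    omega
  refine ⟨i, h, fun a => ?_⟩
  have h1 : π a h ∉ Bad := by
    intro hb
    apply hh
    simp only [mem_biUnion, mem_univ, true_and, mem_image]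
    exact ⟨a, π a h, hb, by simp⟩
  simp only [hBad, mem_filter, mem_univ, true_and, not_lt] at h1
  obtain ⟨z, hz, hz2⟩ := exists_mem_eq_inf' hSne (fun z => (hammingDist (π a h) z : ℝ))
  refine ⟨z, (mem_filter.1 hz).2, ?_⟩
  have h3 : f (π a h) = hammingDist (π a h) z := hz2
  linarith

end H332Z.EA
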