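import Mathlib

set_option autoImplicit false

namespace H332Z.EA

open Set

section norm

variable {G : Type} [Group G]

/-- conjugation invariant pseudonorm -/
structure IsCN (N : G → ℝ) : Prop where
  one : N 1 = 0
  nonneg : ∀ g, 0 ≤ N g
  inv : ∀ g, N g⁻¹ = N g
  mul : ∀ g h, N (g * h) ≤ N g + N h
  conj : ∀ g u, N (u⁻¹ * g * u) = N g

theorem IsCN.min {N : G → ℝ} (hN : IsCN N) {M : ℝ} (hM : 0 ≤ M) :
    IsCN (fun g => min (N g) M) where
  one := by simp [hN.one, hM]
  nonneg g := le_min (hN.nonneg g) hM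
  inv g := by simp only [hN.inv]
  mul g h := by
    have h1 := hN.mul g h
    have h2 := hN.nonneg g
    have h3 := hN.nonneg h
    simp only [min_def]
    split_ifs <;> linarith
  conj g u := by simp only [hN.conj]

/-- A pseudonorm built from a family of endomorphisms subject to weighted constraints. -/
theorem exists_norm {N : G → ℝ} (hN : IsCN N) {M : ℝ} (hM : ∀ g, N g ≤ M)
    {R I : Type} (r : R → G →* G) (w : I → ℝ) (hw : ∀ i, 0 ≤ w i) (S : I → R → Prop)
    (hS : ∀ J : Finset I, ∑ i ∈ J, w i < M → ∃ t, ∀ i ∈ J, S i t) :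
    ∃ ρ : G → ℝ, IsCN ρ ∧ (∀ g, (∀ t, r t g = g) → ρ g = N g) ∧
      ∀ (g : G) (J : Finset I), (∀ t, (∀ i ∈ J, S i t) → r t g = 1) → ρ g ≤ ∑ i ∈ J, w i := by
  classical
  let T : G → Set ℝ := fun g => {x | ∃ J : Finset I, ∑ i ∈ J, w i ≤ x ∧
    ∀ t, (∀ i ∈ J, S i t) → ∑ i ∈ J, w i + N (r t g) ≤ x}
  have hM0 : 0 ≤ M := (hN.nonneg 1).trans (hM 1)
  have hne : ∀ g, (T g).Nonempty := fun g => ⟨M, ∅, by simpa using hM0, fun t _ => by
    simpa using hM _⟩
  have hlb : ∀ g, ∀ x ∈ T g, 0 ≤ x := by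
    rintro g x ⟨J, hJ, -⟩
    exact (Finset.sum_nonneg fun i _ => hw i).trans hJ
  have hbdd : ∀ g, BddBelow (T g) := fun g => ⟨0, hlb g⟩
  have hle : ∀ (g : G) (J : Finset I), (∀ t, (∀ i ∈ J, S i t) → r t g = 1) →
      sInf (T g) ≤ ∑ i ∈ J, w i := by
    intro g J hJ
    refine csInf_le (hbdd g) ⟨J, le_rfl, fun t ht => ?_⟩
    rw [hJ t ht, hN.one, add_zero]
  refine ⟨fun g => sInf (T g), ⟨?_, ?_, ?_, ?_, ?_⟩, ?_, hle⟩
  · refine le_antisymm ?_ (le_csInf (hne 1) (hlb 1))
    simpa using hle 1 ∅ (fun t _ => map_one _)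
  · exact fun g => le_csInf (hne g) (hlb g)
  · intro g
    simp only [T, map_inv, hN.inv]
  · intro g h
    have h1 : ∀ x ∈ T g, ∀ y ∈ T h, sInf (T (g * h)) ≤ x + y := by
      rintro x ⟨J1, hJ1, h1⟩ y ⟨J2, hJ2, h2⟩
      have hu : ∑ i ∈ J1 ∪ J2, w i ≤ ∑ i ∈ J1, w i + ∑ i ∈ J2, w i := by
        rw [← Finset.sum_union_inter]
        have := Finset.sum_nonneg (s := J1 ∩ J2) fun i _ => hw i
        linarith
      refine csInf_le (hbdd _) ⟨J1 ∪ J2, by linarith, fun t ht => ?_⟩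
      have h3 := h1 t (fun i hi => ht i (Finset.mem_union_left _ hi))
      have h4 := h2 t (fun i hi => ht i (Finset.mem_union_right _ hi))
      have h5 := hN.mul (r t g) (r t h)
      rw [map_mul]
      linarith
    have h2 : ∀ x ∈ T g, sInf (T (g * h)) - x ≤ sInf (T h) := fun x hx =>
      le_csInf (hne h) fun y hy => by linarith [h1 x hx y hy]
    have h3 : sInf (T (g * h)) - sInf (T h) ≤ sInf (T g) :=
      le_csInf (hne g) fun x hx => by linarith [h2 x hx]
    linarith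
  · intro g u
    simp only [T, map_mul, map_inv, hN.conj]
  · intro g hg
    apply le_antisymm
    · refine csInf_le (hbdd g) ⟨∅, by simpa using hN.nonneg g, fun t _ => by simp [hg t]⟩
    · refine le_csInf (hne g) ?_
      rintro x ⟨J, hJ, h1⟩
      by_cases hJM : ∑ i ∈ J, w i < M
      · obtain ⟨t, ht⟩ := hS J hJM
        have h2 := h1 t ht
        rw [hg t] at h2
        have := Finset.sum_nonneg (s := J) fun i _ => hw i
        linarith
      · linarith [hM g, not_lt.1 hJM]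

/-- Few edges of a Cayley graph of a quotient can be lifted, up to base points. -/
theorem exists_lift_aux (A : Set G) (hA : A.Finite) : ∀ n : ℕ, ∃ W : Set G, W.Finite ∧
    ∀ (Q : Type) [Group Q] (σ : G →* Q) (S : Finset (G × Q)), S.card ≤ n → (∀ s ∈ S, s.1 ∈ A) →
      ∃ (β : Q → Q) (w : Q → G), (∀ q, w q ∈ W) ∧ (∀ q, q = σ (w q) * β q) ∧
        ∀ s ∈ S, β (σ s.1 * s.2) = β s.2 := by
  classical
  intro n
  induction n with
  | zero =>
    refine ⟨{1}, finite_singleton _, fun Q _ σ S hS _ => ⟨id, fun _ => 1, by simp, by simp, ?_⟩⟩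
    have : S = ∅ := Finset.card_eq_zero.1 (by omega)
    simp [this]
  | succ n ih =>
    obtain ⟨W, hW, ih⟩ := ih
    refine ⟨W ∪ (fun p : (G × G) × (G × G) => p.1.1 * p.1.2⁻¹ * p.2.1 * p.2.2) ''
      ((W ×ˢ W) ×ˢ (A ×ˢ W)), hW.union (((hW.prod hW).prod (hA.prod hW)).image _), ?_⟩
    intro Q _ σ S hS hSA
    rcases S.eq_empty_or_nonempty with rfl | ⟨s, hs⟩
    · obtain ⟨β, w, h1, h2, -⟩ := ih Q σ ∅ (by simp) (by simp)
      exact ⟨β, w, fun q => Or.inl (h1 q), h2, by simp⟩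
    obtain ⟨β, w, h1, h2, h3⟩ := ih Q σ (S.erase s) (by rw [Finset.card_erase_of_mem hs]; omega)
      (fun s' hs' => hSA s' (Finset.mem_of_mem_erase hs'))
    set q1 := s.2 with hq1
    set q2 := σ s.1 * s.2 with hq2
    refine ⟨fun q => if β q = β q2 then β q1 else β q,
      fun q => if β q = β q2 then w q * (w q2)⁻¹ * s.1 * w q1 else w q, fun q => ?_, fun q => ?_,
      fun s' hs' => ?_⟩
    · dsimp only
      split_ifs
      · exact Or.inr ⟨((w q, w q2), (s.1, w q1)), ⟨⟨h1 _, h1 _⟩, ⟨hSA s hs, h1 _⟩⟩, rfl⟩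
      · exact Or.inl (h1 q)
    · dsimp only
      split_ifs with hq
      · have e1 := h2 q
        have e2 := h2 q2
        have e3 := h2 q1
        have e4 : β q2 = (σ (w q2))⁻¹ * (σ s.1 * (σ (w q1) * β q1)) := by
          rw [← e3, ← hq2, eq_inv_mul_iff_mul_eq, ← e2]
        rw [hq, e4] at e1
        simp only [map_mul, map_inv, mul_assoc]
        exact e1
      · exact h2 q
    · dsimp only
      by_cases hss : s' = s
      · subst hss
        rw [← hq2, ← hq1, if_pos rfl]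
        split_ifs <;> rfl
      · rw [h3 s' (Finset.mem_erase.2 ⟨hss, hs'⟩)]

/-- Few edges of a Cayley graph of a sufficiently faithful quotient lift to the group. -/
theorem exists_lift (A : Set G) (hA : A.Finite) (n : ℕ) : ∃ W : Set G, W.Finite ∧
    ∀ (Q : Type) [Group Q] (σ : G →* Q), InjOn σ W → ∀ (S : Finset (G × Q)), S.card ≤ n →
      (∀ s ∈ S, s.1 ∈ A) → ∃ φ : Q → G, ∀ s ∈ S, φ (σ s.1 * s.2) = s.1 * φ s.2 := by
  obtain ⟨W, hW, h⟩ := exists_lift_aux A hA n
  refine ⟨W ∪ (fun p : G × G => p.1 * p.2) '' (A ×ˢ W), hW.union ((hA.prod hW).image _), ?_⟩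
  intro Q _ σ hσ S hS hSA
  obtain ⟨β, w, h1, h2, h3⟩ := h Q σ S hS hSA
  refine ⟨w, fun s hs => hσ (Or.inl (h1 _)) (Or.inr ⟨(s.1, w s.2), ⟨hSA s hs, h1 _⟩, rfl⟩) ?_⟩
  have e1 := h2 (σ s.1 * s.2)
  have e2 := h2 s.2
  rw [h3 s hs] at e1
  apply mul_right_cancel (b := β s.2)
  rw [← e1, map_mul, mul_assoc, ← e2]

end norm

section free

variable {X : Type}

open Classical in
/-- The finite set of suffix products of a word. -/
noncomputable def suf (L : List (X × Bool)) : Finset (FreeGroup X) :=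
  (L.tails.map FreeGroup.mk).toFinset

theorem mem_suf (L L' : List (X × Bool)) (h : L' <:+ L) : FreeGroup.mk L' ∈ suf L := by
  classical
  simp only [suf, List.mem_toFinset, List.mem_map, List.mem_tails]
  exact ⟨L', h, rfl⟩

/-- Left multiplication by a generator as a bijection between two subsets of the suffix products. -/
def pact (L : List (X × Bool)) (x : X) :
    {u : {u // u ∈ suf L} // FreeGroup.of x * u.1 ∈ suf L} ≃
      {u : {u // u ∈ suf L} // (FreeGroup.of x)⁻¹ * u.1 ∈ suf L} where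
  toFun := fun u => ⟨⟨FreeGroup.of x * u.1.1, u.2⟩, by simp⟩
  invFun := fun u => ⟨⟨(FreeGroup.of x)⁻¹ * u.1.1, u.2⟩, by simp⟩
  left_inv := fun u => by ext; simp
  right_inv := fun u => by ext; simp

open Classical in
/-- The permutation by which a generator acts on the suffix products. -/
noncomputable def act1 (L : List (X × Bool)) (x : X) : Equiv.Perm {u // u ∈ suf L} :=
  (pact L x).extendSubtype

theorem act1_apply (L : List (X × Bool)) (x : X) (u : {u // u ∈ suf L})
    (h : FreeGroup.of x * u.1 ∈ suf L) : act1 L x u = ⟨FreeGroup.of x * u.1, h⟩ := by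
  classical
  exact Equiv.extendSubtype_apply_of_mem (pact L x) u h

theorem act_suffix (L : List (X × Bool)) : ∀ (L' : List (X × Bool)) (_ : L' <:+ L),
    (FreeGroup.lift (act1 L) (FreeGroup.mk L') ⟨1, mem_suf L [] (List.nil_suffix)⟩).1 =
      FreeGroup.mk L' := by
  intro L'
  induction L' with
  | nil =>
    intro h
    rw [← FreeGroup.one_eq_mk, map_one]
    rfl
  | cons a L' ih =>
    intro h
    have h' : L' <:+ L := (List.suffix_cons a L').trans h
    obtain ⟨x, b⟩ := a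
    have hmk : FreeGroup.mk ((x, b) :: L') = FreeGroup.mk [(x, b)] * FreeGroup.mk L' := by
      rw [FreeGroup.mul_mk]; rfl
    have hmem := mem_suf L _ h
    have ih2 : FreeGroup.lift (act1 L) (FreeGroup.mk L') ⟨1, mem_suf L [] (List.nil_suffix)⟩ =
      ⟨FreeGroup.mk L', mem_suf L L' h'⟩ := Subtype.ext (ih h')
    rw [hmk, map_mul, Equiv.Perm.mul_apply, ih2]
    rw [hmk] at hmem
    cases b with
    | true =>
      have h1 : FreeGroup.mk [(x, true)] = FreeGroup.of x := rfl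
      rw [h1] at hmem
      rw [h1, FreeGroup.lift_apply_of, act1_apply L x _ hmem]
    | false =>
      have h1 : FreeGroup.mk [(x, false)] = (FreeGroup.of x)⁻¹ := rfl
      rw [h1] at hmem
      rw [h1, map_inv, FreeGroup.lift_apply_of]
      have h2 : act1 L x ⟨(FreeGroup.of x)⁻¹ * FreeGroup.mk L', hmem⟩ =
          ⟨FreeGroup.mk L', mem_suf L L' h'⟩ := by
        rw [act1_apply L x _ (by simpa using mem_suf L L' h')]
        apply Subtype.ext
        simp
      rw [← h2, ← Equiv.Perm.mul_apply, inv_mul_cancel]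
      rfl

theorem free_sep (w : FreeGroup X) (hw : w ≠ 1) :
    ∃ (Q : Type) (_ : Group Q) (_ : Finite Q) (φ : FreeGroup X →* Q), φ w ≠ 1 := by
  classical
  obtain ⟨L, rfl⟩ : ∃ L, FreeGroup.mk L = w := Quot.exists_rep w
  refine ⟨Equiv.Perm {u // u ∈ suf L}, inferInstance, inferInstance, FreeGroup.lift (act1 L), ?_⟩
  intro h
  have h1 := act_suffix L L List.suffix_rfl
  rw [h] at h1
  exact hw h1.symm

theorem free_sep_finite (T : Set (FreeGroup X)) (hT : T.Finite) :
    ∃ (Q : Type) (_ : Group Q) (_ : Finite Q) (φ : FreeGroup X →* Q),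
      ∀ w ∈ T, w ≠ 1 → φ w ≠ 1 := by
  induction T, hT using Set.Finite.induction_on with
  | empty => exact ⟨Unit, inferInstance, inferInstance, 1, by simp⟩
  | @insert a s _ _ ih =>
    obtain ⟨Q, _, _, φ, hφ⟩ := ih
    by_cases ha : a = 1
    · refine ⟨Q, inferInstance, inferInstance, φ, ?_⟩
      rintro w (rfl | hw) hw1
      · exact absurd ha hw1
      · exact hφ w hw hw1
    · obtain ⟨Q', _, _, ψ, hψ⟩ := free_sep a ha
      refine ⟨Q × Q', inferInstance, inferInstance, φ.prod ψ, ?_⟩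
      rintro w (rfl | hw) hw1 h
      · exact hψ (congrArg Prod.snd h)
      · exact hφ w hw hw1 (congrArg Prod.fst h)

theorem free_injOn (W : Set (FreeGroup X)) (hW : W.Finite) :
    ∃ (Q : Type) (_ : Group Q) (_ : Finite Q) (φ : FreeGroup X →* Q), InjOn φ W := by
  obtain ⟨Q, _, _, φ, hφ⟩ := free_sep_finite
    ((fun p : FreeGroup X × FreeGroup X => p.1⁻¹ * p.2) '' (W ×ˢ W)) ((hW.prod hW).image _)
  refine ⟨Q, inferInstance, inferInstance, φ, fun x hx y hy hxy => ?_⟩
  by_contra hne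
  refine hφ (x⁻¹ * y) ⟨(x, y), ⟨hx, hy⟩, rfl⟩ (fun h => hne (inv_mul_eq_one.1 h)) ?_
  rw [map_mul, map_inv, hxy, inv_mul_cancel]

theorem exists_support (g : FreeGroup ℕ) : ∃ m : ℕ, ∀ φ : FreeGroup ℕ →* FreeGroup ℕ,
    (∀ j < m, φ (FreeGroup.of j) = FreeGroup.of j) → φ g = g := by
  induction g using FreeGroup.induction_on with
  | C1 => exact ⟨0, fun φ _ => map_one φ⟩
  | of x => exact ⟨x + 1, fun φ h => h x (Nat.lt_succ_self x)⟩
  | inv_of x ih =>
    obtain ⟨m, hm⟩ := ih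
    exact ⟨m, fun φ h => by rw [map_inv, hm φ h]⟩
  | mul x y hx hy =>
    obtain ⟨m1, h1⟩ := hx
    obtain ⟨m2, h2⟩ := hy
    refine ⟨max m1 m2, fun φ h => ?_⟩
    rw [map_mul, h1 φ (fun j hj => h j (hj.trans_le (le_max_left _ _))),
      h2 φ (fun j hj => h j (hj.trans_le (le_max_right _ _)))]

theorem exists_support_finset (F : Finset (FreeGroup ℕ)) : ∃ m : ℕ,
    ∀ φ : FreeGroup ℕ →* FreeGroup ℕ,
      (∀ j < m, φ (FreeGroup.of j) = FreeGroup.of j) → ∀ g ∈ F, φ g = g := by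
  choose m hm using exists_support
  exact ⟨F.sup m, fun φ h g hg => hm g φ (fun j hj => h j (hj.trans_le (Finset.le_sup hg)))⟩

end free

end H332Z.EA
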