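import Mathlib

set_option autoImplicit false

namespace H332Z.EA

open Set Filter Topology

variable {G : Type} [Group G]

/-- bi-invariant pseudometric -/
structure IsBI (d : G → G → ℝ) : Prop where
  refl : ∀ g, d g g = 0
  symm : ∀ g h, d g h = d h g
  tri : ∀ g h k, d g k ≤ d g h + d h k
  left : ∀ g h k, d (k * g) (k * h) = d g h
  right : ∀ g h k, d (g * k) (h * k) = d g h

theorem IsBI.nonneg {d : G → G → ℝ} (hd : IsBI d) (g h : G) : 0 ≤ d g h := by
  have h1 := hd.tri g h g
  rw [hd.refl, hd.symm h g] at h1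
  linarith

/-- extreme amenability, as in the frozen statement -/
def ExAm (d : G → G → ℝ) : Prop :=
  ∀ (X : Type) [TopologicalSpace X] [CompactSpace X] [T2Space X] [Nonempty X]
    [MulAction G X],
    (∀ (g : G) (x : X) (U : Set X), IsOpen U → g • x ∈ U →
      ∃ ε > (0 : ℝ), ∃ V : Set X, IsOpen V ∧ x ∈ V ∧
        ∀ h : G, d g h < ε → ∀ y ∈ V, h • y ∈ U) →
    ∃ x : X, ∀ g : G, g • x = x

/-- the finite Ramsey condition -/
def Ram (d : G → G → ℝ) (A : Finset G) (ε : ℝ) (k : ℕ) : Prop :=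
  ∃ B : Finset G, ∀ c : B → Fin (k + 1), ∃ i, ∃ h : G, ∀ a ∈ A, ∃ b : B,
    c b = i ∧ d (a * h) b < ε

theorem Ram.mono {d : G → G → ℝ} {A : Finset G} {ε ε' : ℝ} {k : ℕ} (h : Ram d A ε k)
    (hε : ε ≤ ε') : Ram d A ε' k := by
  obtain ⟨B, hB⟩ := h
  refine ⟨B, fun c => ?_⟩
  obtain ⟨i, h, hh⟩ := hB c
  refine ⟨i, h, fun a ha => ?_⟩
  obtain ⟨b, hb1, hb2⟩ := hh a ha
  exact ⟨b, hb1, hb2.trans_le hε⟩

theorem ea_of_ram {d : G → G → ℝ} (hd : IsBI d)
    (hR : ∀ (A : Finset G) (n k : ℕ), Ram d A (1 / ((n : ℝ) + 1)) k) : ExAm d := by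
  classical
  intro X _ _ _ _ _ H
  by_contra hcon
  push Not at hcon
  choose g hg using hcon
  have key : ∀ x : X, ∃ (W V : Set X) (ε : ℝ), 0 < ε ∧ IsOpen V ∧ x ∈ V ∧
      (∀ h : G, d 1 h < ε → ∀ y ∈ V, h • y ∈ W) ∧ ∀ y ∈ W, g x • y ∉ W := by
    intro x
    obtain ⟨U', U, hU', hU, hx', hx, hdis⟩ := t2_separation (hg x)
    obtain ⟨ε', hε', V', hV', hxV', hV'2⟩ := H (g x) x U' hU' hx'
    obtain ⟨ε, hε, V, hV, hxV, hV2⟩ := H 1 x (U ∩ V') (hU.inter hV') (by simpa using ⟨hx, hxV'⟩)
    refine ⟨U ∩ V', V, ε, hε, hV, hxV, hV2, fun y hy hy2 => ?_⟩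
    have h1 := hV'2 (g x) (by rw [hd.refl]; exact hε') y hy.2
    exact Set.disjoint_left.1 hdis h1 hy2.1
  choose W V ε hε hV hxV hVW hW using key
  obtain ⟨t, ht⟩ := isCompact_univ.elim_finite_subcover V hV
    (fun x _ => mem_iUnion.2 ⟨x, hxV x⟩)
  obtain ⟨x0⟩ := ‹Nonempty X›
  have hcol : ∀ y : X, ∃ x : t, y ∈ V x := by
    intro y
    have := ht (mem_univ y)
    simp only [mem_iUnion] at this
    obtain ⟨x, hx, hy⟩ := this
    exact ⟨⟨x, hx⟩, hy⟩
  choose col hcol using hcol
  have htne : t.Nonempty := ⟨(col x0).1, (col x0).2⟩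
  obtain ⟨k, hk⟩ : ∃ k, Fintype.card t = k + 1 := by
    have : 0 < Fintype.card t := by
      rw [Fintype.card_coe]; exact htne.card_pos
    exact ⟨Fintype.card t - 1, by omega⟩
  let e : t ≃ Fin (k + 1) := Fintype.equivFinOfCardEq hk
  obtain ⟨n, hn⟩ := exists_nat_one_div_lt
    (show (0 : ℝ) < t.inf' htne ε from (Finset.lt_inf'_iff _).2 (fun x _ => hε x))
  obtain ⟨B, hB⟩ := hR (insert 1 (t.image g)) n k
  obtain ⟨i, h, hh⟩ := hB (fun b => e (col ((b : G) • x0)))
  set x : t := e.symm i with hx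
  have hall : ∀ a ∈ insert 1 (t.image g), (a * h) • x0 ∈ W x := by
    intro a ha
    obtain ⟨b, hb1, hb2⟩ := hh a ha
    have h1 : col ((b : G) • x0) = x := by rw [hx, ← hb1]; simp
    have h2 := hcol ((b : G) • x0)
    rw [h1] at h2
    have h3 : d 1 (a * h * (b : G)⁻¹) < ε x := by
      rw [← hd.right _ _ (b : G), one_mul, inv_mul_cancel_right, hd.symm]
      exact hb2.trans (hn.trans_le (Finset.inf'_le _ x.2))
    have h4 := hVW x _ h3 _ h2
    rwa [smul_smul, inv_mul_cancel_right] at h4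
  have h1 := hall 1 (Finset.mem_insert_self _ _)
  have h2 := hall (g x) (Finset.mem_insert_of_mem (Finset.mem_image_of_mem _ x.2))
  rw [one_mul] at h1
  rw [mul_smul] at h2
  exact hW x _ h1 h2

/-- the group with the pseudometric `d` -/
def Gd (_d : G → G → ℝ) : Type := G

/-- its pseudometric space structure -/
@[reducible] def Gd.pms {d : G → G → ℝ} (hd : IsBI d) : PseudoMetricSpace (Gd d) where
  dist := d
  dist_self := hd.refl
  dist_comm := hd.symm
  dist_triangle := hd.tri

/-- the compact flow of a bad colouring -/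
def flow (d : G → G → ℝ) (A : Finset G) (ε : ℝ) (k : ℕ) : Set (G → Fin (k + 1) → ℝ) :=
  {f | (∀ x i, f x i ∈ Icc 0 ε) ∧ (∀ x y i, f x i ≤ f y i + d x y) ∧ (∀ x, ∃ i, f x i = 0) ∧
    ∀ i h, ∃ a ∈ A, f (a * h) i = ε}

theorem flow_compact (d : G → G → ℝ) (A : Finset G) (ε : ℝ) (k : ℕ) :
    IsCompact (flow d A ε k) := by
  have h1 : IsCompact {f : G → Fin (k + 1) → ℝ | ∀ x, f x ∈ {u : Fin (k + 1) → ℝ | ∀ i, u i ∈ Icc 0 ε}} :=
    isCompact_pi_infinite (fun _ => isCompact_pi_infinite (fun _ => isCompact_Icc))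
  refine h1.of_isClosed_subset ?_ (fun f hf => hf.1)
  unfold flow
  simp only [ofPred_and, ofPred_forall, ofPred_exists]
  refine IsClosed.inter ?_ (IsClosed.inter ?_ (IsClosed.inter ?_ ?_))
  · refine isClosed_iInter fun x => isClosed_iInter fun i => ?_
    exact isClosed_Icc.preimage (f := fun f : G → Fin (k + 1) → ℝ => f x i) (by fun_prop)
  · refine isClosed_iInter fun x => isClosed_iInter fun y => isClosed_iInter fun i => ?_
    exact isClosed_le (by fun_prop) (by fun_prop)
  · refine isClosed_iInter fun x => isClosed_iUnion_of_finite fun i => ?_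
    exact isClosed_eq (by fun_prop) (by fun_prop)
  · refine isClosed_iInter fun i => isClosed_iInter fun h => ?_
    have : (⋃ a, {f : G → Fin (k + 1) → ℝ | a ∈ A} ∩ {f | f (a * h) i = ε}) =
        ⋃ a ∈ A, {f : G → Fin (k + 1) → ℝ | f (a * h) i = ε} := by
      ext f; simp
    rw [this]
    exact isClosed_biUnion_finset fun a _ => isClosed_eq (by fun_prop) (by fun_prop)

theorem ram_of_ea {d : G → G → ℝ} (hd : IsBI d) (hE : ExAm d) (A : Finset G) {ε : ℝ}
    (hε : 0 < ε) (k : ℕ) : Ram d A ε k := by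
  classical
  by_contra hcon
  unfold Ram at hcon
  push Not at hcon
  choose c hc using hcon
  obtain ⟨χ, hχ⟩ := Finset.rado_selection_subtype (β := fun _ : G => Fin (k + 1)) c
  have hbad : ∀ i h, ∃ a ∈ A, ∀ b, χ b = i → ε ≤ d (a * h) b := by
    intro i h
    by_contra hc2
    push Not at hc2
    choose! b hb1 hb2 using hc2
    obtain ⟨t, hst, ht⟩ := hχ (A.image b)
    obtain ⟨a, ha, hb⟩ := hc t i h
    have hm : b a ∈ A.image b := Finset.mem_image_of_mem _ ha
    have h1 := hb ⟨b a, hst hm⟩ (by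
      have := ht ⟨b a, hm⟩
      rw [← hb1 a ha]
      exact this.symm)
    exact absurd (hb2 a ha) (not_lt.2 h1)
  let f0 : G → Fin (k + 1) → ℝ := fun x i => ⨅ b : G, if χ b = i then min ε (d x b) else ε
  have hbdd : ∀ x i, BddBelow (range fun b : G => if χ b = i then min ε (d x b) else ε) := by
    intro x i
    refine ⟨0, ?_⟩
    rintro _ ⟨b, rfl⟩
    dsimp only
    split_ifs
    · exact le_min hε.le (hd.nonneg _ _)
    · exact hε.le
  have hf0a : ∀ x i, 0 ≤ f0 x i := by
    intro x i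
    refine le_ciInf fun b => ?_
    split_ifs
    · exact le_min hε.le (hd.nonneg _ _)
    · exact hε.le
  have hf0b : ∀ x i, f0 x i ≤ ε := by
    intro x i
    refine (ciInf_le (hbdd x i) 1).trans ?_
    split_ifs
    · exact min_le_left _ _
    · exact le_rfl
  have hf0 : f0 ∈ flow d A ε k := by
    refine ⟨fun x i => ⟨hf0a x i, hf0b x i⟩, fun x y i => ?_, fun x => ⟨χ x, ?_⟩, fun i h => ?_⟩
    · rw [← sub_le_iff_le_add]
      refine le_ciInf fun b => ?_
      have h1 := ciInf_le (hbdd x i) b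
      have h2 := hd.nonneg x y
      have h3 := hd.tri x y b
      change f0 x i ≤ _ at h1
      split_ifs at h1 ⊢
      · rw [le_min_iff] at h1 ⊢
        constructor <;> linarith [h1.1, h1.2]
      · linarith
    · refine le_antisymm ?_ (hf0a _ _)
      refine (ciInf_le (hbdd x _) x).trans ?_
      rw [if_pos rfl, hd.refl]
      exact min_le_right _ _
    · obtain ⟨a, ha, hb⟩ := hbad i h
      refine ⟨a, ha, le_antisymm (hf0b _ _) (le_ciInf fun b => ?_)⟩
      split_ifs with hbi
      · exact le_min le_rfl (hb b hbi)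
      · exact le_rfl
  let X := flow d A ε k
  haveI : CompactSpace X := isCompact_iff_compactSpace.1 (flow_compact d A ε k)
  haveI : Nonempty X := ⟨⟨f0, hf0⟩⟩
  have hinv : ∀ (g : G) (f : X), (fun x => f.1 (x * g)) ∈ X := by
    intro g f
    obtain ⟨h1, h2, h3, h4⟩ := f.2
    refine ⟨fun x i => h1 _ _, fun x y i => ?_, fun x => h3 _, fun i h => ?_⟩
    · have := h2 (x * g) (y * g) i
      rwa [hd.right] at this
    · obtain ⟨a, ha, h5⟩ := h4 i (h * g)
      exact ⟨a, ha, by rw [← h5, ← mul_assoc]⟩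
  letI : MulAction G X :=
    { smul := fun g f => ⟨fun x => f.1 (x * g), hinv g f⟩
      one_smul := fun f => Subtype.ext (funext fun x => by
        change f.1 (x * 1) = f.1 x
        rw [mul_one])
      mul_smul := fun g h f => Subtype.ext (funext fun x => by
        change f.1 (x * (g * h)) = f.1 (x * g * h)
        rw [mul_assoc]) }
  have hsm : ∀ (g : G) (f : X) (x : G), (g • f).1 x = f.1 (x * g) := fun _ _ _ => rfl
  obtain ⟨f, hf⟩ := hE X (by
    intro g f U hU hgf
    letI : PseudoMetricSpace (Gd d) := Gd.pms hd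
    have hcont : Continuous (fun p : Gd d × X => ((show G from p.1) • p.2 : X)) := by
      refine Continuous.subtype_mk (continuous_pi fun x => continuous_pi fun i => ?_) _
      rw [continuous_iff_continuousAt]
      rintro ⟨g0, f1⟩
      have hA : Tendsto (fun p : Gd d × X => p.2.1 (x * (show G from g0)) i) (𝓝 (g0, f1))
          (𝓝 (f1.1 (x * (show G from g0)) i)) := by
        have : Continuous (fun p : Gd d × X => p.2.1 (x * (show G from g0)) i) :=
          (continuous_apply i).comp ((continuous_apply _).comp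
            (continuous_subtype_val.comp continuous_snd))
        exact this.tendsto (g0, f1)
      have hB : Tendsto (fun p : Gd d × X => dist p.1 g0) (𝓝 (g0, f1)) (𝓝 0) := by
        have : Continuous (fun p : Gd d × X => dist p.1 g0) := by fun_prop
        simpa using this.tendsto (g0, f1)
      have hlo := hA.sub hB
      have hhi := hA.add hB
      rw [sub_zero] at hlo
      rw [add_zero] at hhi
      refine tendsto_of_tendsto_of_tendsto_of_le_of_le hlo hhi (fun p => ?_) (fun p => ?_)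
      · have := p.2.2.2.1 (x * (show G from g0)) (x * (show G from p.1)) i
        rw [hd.left, hd.symm] at this
        change _ - d p.1 g0 ≤ p.2.1 (x * (show G from p.1)) i
        linarith
      · have := p.2.2.2.1 (x * (show G from p.1)) (x * (show G from g0)) i
        rw [hd.left] at this
        exact this
    have h1 := (hcont.isOpen_preimage U hU).mem_nhds (x := ((show Gd d from g), f)) hgf
    rw [mem_nhds_prod_iff] at h1
    obtain ⟨u, hu, v, hv, huv⟩ := h1
    obtain ⟨δ, hδ, hδu⟩ := Metric.mem_nhds_iff.1 hu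
    obtain ⟨V, hVv, hV, hfV⟩ := mem_nhds_iff.1 hv
    refine ⟨δ, hδ, V, hV, hfV, fun h hh y hy => ?_⟩
    have h2 : ((show Gd d from h), y) ∈ u ×ˢ v := by
      refine ⟨hδu ?_, hVv hy⟩
      rw [Metric.mem_ball, dist_comm]
      exact hh
    exact huv h2)
  obtain ⟨i, hi⟩ := f.2.2.2.1 1
  obtain ⟨a, -, ha⟩ := f.2.2.2.2 i 1
  have h1 := hsm (a * 1) f 1
  rw [hf, one_mul] at h1
  rw [← h1, hi] at ha
  exact hε.ne ha

theorem isOpen_ram (A : Finset G) (ε : ℝ) (k : ℕ) :
    IsOpen {d : G → G → ℝ | Ram d A ε k} := by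
  unfold Ram
  simp only [ofPred_exists, ofPred_forall]
  refine isOpen_iUnion fun B => isOpen_iInter_of_finite fun c => isOpen_iUnion fun i =>
    isOpen_iUnion fun h => isOpen_biInter_finset fun a _ => isOpen_iUnion fun b => ?_
  by_cases hb : c b = i
  · simp only [hb, true_and]
    exact isOpen_lt (by fun_prop) (by fun_prop)
  · simp [hb]

end H332Z.EA
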