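import Pool.Agent.H332Z.EA.Conc
import Pool.Agent.H332Z.EA.Ramsey
import Pool.Agent.H332Z.EA.Norm

set_option autoImplicit false

namespace H332Z.EA

open Set Filter Topology

theorem IsBI.isCN {G : Type} [Group G] {d : G → G → ℝ} (hd : IsBI d) : IsCN (fun g => d 1 g) where
  one := hd.refl 1
  nonneg g := hd.nonneg _ _
  inv g := by
    change d 1 g⁻¹ = d 1 g
    rw [← hd.left _ _ g, mul_one, mul_inv_cancel, hd.symm]
  mul g h := by
    change d 1 (g * h) ≤ d 1 g + d 1 h
    have h1 := hd.tri 1 g (g * h)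
    have h2 := hd.left 1 h g
    rw [mul_one] at h2
    linarith
  conj g u := by
    change d 1 (u⁻¹ * g * u) = d 1 g
    rw [← hd.left _ _ u, ← hd.right _ _ u⁻¹]
    congr 1 <;> group

theorem IsCN.isBI {G : Type} [Group G] {N : G → ℝ} (hN : IsCN N) :
    IsBI (fun g h => N (g⁻¹ * h)) where
  refl g := by simp [hN.one]
  symm g h := by
    change N (g⁻¹ * h) = N (h⁻¹ * g)
    rw [← hN.inv]; congr 1; group
  tri g h k := by
    have := hN.mul (g⁻¹ * h) (h⁻¹ * k)
    change N (g⁻¹ * k) ≤ _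
    rwa [show g⁻¹ * h * (h⁻¹ * k) = g⁻¹ * k by group] at this
  left g h k := by
    change N _ = N _
    congr 1; group
  right g h k := by
    change N _ = N _
    rw [← hN.conj (g⁻¹ * h) k]
    congr 1; group

/-- The main construction: any bi-invariant pseudometric can be changed outside a finite set so
that a given Ramsey condition holds. -/
theorem exists_ram {d : FreeGroup ℕ → FreeGroup ℕ → ℝ} (hd : IsBI d)
    (F A : Finset (FreeGroup ℕ)) {ε : ℝ} (hε : 0 < ε) (k : ℕ) :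
    ∃ p : FreeGroup ℕ → FreeGroup ℕ → ℝ, IsBI p ∧ (∀ g ∈ F, ∀ h ∈ F, p g h = d g h) ∧
      Ram p A ε k := by
  classical
  obtain ⟨M, hM1, hM⟩ : ∃ M : ℝ, 0 < M ∧ ∀ g ∈ F, ∀ h ∈ F, d g h ≤ M := by
    refine ⟨1 + ∑ g ∈ F, ∑ h ∈ F, d g h, ?_, fun g hg h hh => ?_⟩
    · have : 0 ≤ ∑ g ∈ F, ∑ h ∈ F, d g h :=
        Finset.sum_nonneg fun g _ => Finset.sum_nonneg fun h _ => hd.nonneg g h
      linarith
    · have h1 : d g h ≤ ∑ h ∈ F, d g h :=
        Finset.single_le_sum (f := fun h => d g h) (fun h _ => hd.nonneg g h) hh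
      have h2 : ∑ h ∈ F, d g h ≤ ∑ g ∈ F, ∑ h ∈ F, d g h :=
        Finset.single_le_sum (f := fun g => ∑ h ∈ F, d g h)
          (fun g _ => Finset.sum_nonneg fun h _ => hd.nonneg g h) hg
      linarith
  obtain ⟨m, hm⟩ := exists_support_finset (F ∪ A)
  obtain ⟨N0, hN0⟩ := exists_nat_gt (M / (ε / 3))
  obtain ⟨W, hW, hlift⟩ := exists_lift (A : Set (FreeGroup ℕ)) A.finite_toSet N0
  obtain ⟨Q, _, _, σ, hσ⟩ := free_injOn W hW
  have : Fintype Q := Fintype.ofFinite Q
  obtain ⟨n, hn, hconc⟩ := conc Q A k (ε / 3 / M) (by positivity)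
  have hnR : (0 : ℝ) < n := by exact_mod_cast hn
  let e : (Fin n → Q) → ℕ := fun b => m + (Fintype.equivFin (Fin n → Q) b : ℕ)
  have he : Function.Injective e := by
    intro b b' h
    have h1 : (Fintype.equivFin (Fin n → Q) b : ℕ) = Fintype.equivFin (Fin n → Q) b' :=
      Nat.add_left_cancel h
    exact (Fintype.equivFin (Fin n → Q)).injective (Fin.ext h1)
  let r : Fin n × (Q → FreeGroup ℕ) → FreeGroup ℕ →* FreeGroup ℕ := fun t =>
    FreeGroup.lift (Function.extend e (fun b => t.2 (b t.1)) FreeGroup.of)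
  have hr1 : ∀ t b, r t (FreeGroup.of (e b)) = t.2 (b t.1) := by
    intro t b
    simp only [r, FreeGroup.lift_apply_of]
    exact he.extend_apply _ _ b
  have hr2 : ∀ t, ∀ g ∈ F ∪ A, r t g = g := by
    intro t
    refine hm (r t) (fun j hj => ?_)
    simp only [r, FreeGroup.lift_apply_of]
    refine Function.extend_apply' _ _ _ ?_
    rintro ⟨b, hb⟩
    simp only [e] at hb
    omega
  let w : (A × (Fin n → Q)) ⊕ Fin n → ℝ := Sum.elim (fun _ => ε / 3) (fun _ => M / n)
  let S : (A × (Fin n → Q)) ⊕ Fin n → Fin n × (Q → FreeGroup ℕ) → Prop :=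
    Sum.elim (fun s t => t.2 (σ s.1 * s.2 t.1) = s.1 * t.2 (s.2 t.1)) (fun j t => t.1 ≠ j)
  have hw : ∀ i, 0 ≤ w i := by
    rintro (i | i)
    · change 0 ≤ ε / 3; positivity
    · change 0 ≤ M / n; positivity
  have hS : ∀ J : Finset ((A × (Fin n → Q)) ⊕ Fin n), ∑ i ∈ J, w i < M → ∃ t, ∀ i ∈ J, S i t := by
    intro J hJ
    rw [Finset.sum_sum_eq_sum_toLeft_add_sum_toRight] at hJ
    simp only [w, Sum.elim_inl, Sum.elim_inr, Finset.sum_const, nsmul_eq_mul] at hJ
    have h1 : (0 : ℝ) ≤ J.toLeft.card * (ε / 3) := by positivity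
    have h2 : (0 : ℝ) ≤ J.toRight.card * (M / n) := by positivity
    have h3 : J.toRight.card < n := by
      have h4 : (J.toRight.card : ℝ) * (M / n) < n * (M / n) := by
        rw [mul_div_cancel₀ _ hnR.ne']; linarith
      exact_mod_cast lt_of_mul_lt_mul_right h4 (by positivity)
    have h5 : J.toLeft.card ≤ N0 := by
      rw [div_lt_iff₀ (by positivity)] at hN0
      have h4 : (J.toLeft.card : ℝ) * (ε / 3) < N0 * (ε / 3) := by linarith
      exact_mod_cast (lt_of_mul_lt_mul_right h4 (by positivity)).le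
    obtain ⟨τ, hτ⟩ : ∃ τ : Fin n, τ ∉ J.toRight := by
      by_contra hc
      push Not at hc
      have := Finset.card_le_card (fun x _ => hc x : Finset.univ ⊆ J.toRight)
      simp only [Finset.card_univ, Fintype.card_fin] at this
      omega
    obtain ⟨φ, hφ⟩ := hlift Q σ hσ
      (J.toLeft.image (fun s => ((s.1 : FreeGroup ℕ), s.2 τ))) (Finset.card_image_le.trans h5) (by
        intro s hs
        obtain ⟨s', -, rfl⟩ := Finset.mem_image.1 hs
        exact s'.1.2)
    refine ⟨(τ, φ), ?_⟩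
    rintro (s | j) hi
    · exact hφ _ (Finset.mem_image_of_mem _ (Finset.mem_toLeft.2 hi))
    · rintro rfl
      exact hτ (Finset.mem_toRight.2 hi)
  obtain ⟨ρ, hρ, hρ1, hρ2⟩ := exists_norm (hd.isCN.min hM1.le) (fun g => min_le_right _ _) r w hw S hS
  have hp := hρ.isBI
  refine ⟨fun g h => ρ (g⁻¹ * h), hp, fun g hg h hh => ?_, ?_⟩
  · change ρ (g⁻¹ * h) = d g h
    rw [hρ1 (g⁻¹ * h) (fun t => by
      rw [map_mul, map_inv, hr2 t g (Finset.mem_union_left _ hg),
        hr2 t h (Finset.mem_union_left _ hh)])]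
    have h1 : d 1 (g⁻¹ * h) = d g h := by
      rw [← hd.left _ _ g]; congr 1 <;> group
    change min (d 1 (g⁻¹ * h)) M = _
    rw [h1]
    exact min_eq_left (hM g hg h hh)
  · let B : Finset (FreeGroup ℕ) := Finset.univ.image (fun b => FreeGroup.of (e b))
    have hB : ∀ b, FreeGroup.of (e b) ∈ B := fun b => Finset.mem_image_of_mem _ (Finset.mem_univ b)
    refine ⟨B, fun c => ?_⟩
    obtain ⟨i, h, hh⟩ := hconc (fun b => c ⟨_, hB b⟩)
      (fun a => Equiv.mulLeft (fun _ : Fin n => σ a))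
    refine ⟨i, FreeGroup.of (e h), fun a ha => ?_⟩
    obtain ⟨b, hb1, hb2⟩ := hh ⟨a, ha⟩
    refine ⟨⟨_, hB b⟩, hb1, ?_⟩
    set h' : Fin n → Q := Equiv.mulLeft (fun _ : Fin n => σ a) h with hh'
    have hh'2 : ∀ τ, h' τ = σ a * h τ := fun τ => rfl
    have h1 : ρ ((a * FreeGroup.of (e h))⁻¹ * FreeGroup.of (e h')) ≤ ε / 3 := by
      refine (hρ2 _ {Sum.inl (⟨a, ha⟩, h)} (fun t ht => ?_)).trans (by simp [w])
      have h2 : t.2 (σ a * h t.1) = a * t.2 (h t.1) := ht _ (Finset.mem_singleton_self _)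
      rw [map_mul, map_inv, map_mul, hr1, hr1, hr2 t a (Finset.mem_union_right _ ha), hh'2, h2,
        inv_mul_cancel]
    have h2 : ρ ((FreeGroup.of (e h'))⁻¹ * FreeGroup.of (e b)) ≤ ε / 3 := by
      refine (hρ2 _ ((Finset.univ.filter (fun τ => h' τ ≠ b τ)).map ⟨Sum.inr, Sum.inr_injective⟩)
        (fun t ht => ?_)).trans ?_
      · have h3 : h' t.1 = b t.1 := by
          by_contra hc
          exact ht (Sum.inr t.1) (Finset.mem_map.2 ⟨t.1, by simpa using hc, rfl⟩) rfl
        rw [map_mul, map_inv, hr1, hr1, h3, inv_mul_cancel]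
      · rw [Finset.sum_map]
        simp only [w, Function.Embedding.coeFn_mk, Sum.elim_inr, Finset.sum_const, nsmul_eq_mul]
        have h4 : ((Finset.univ.filter (fun τ => h' τ ≠ b τ)).card : ℝ) ≤ ε / 3 / M * n := hb2
        calc _ ≤ (ε / 3 / M * n) * (M / n) := by gcongr
          _ = ε / 3 := by field_simp
    have h3 := hp.tri (a * FreeGroup.of (e h)) (FreeGroup.of (e h')) (FreeGroup.of (e b))
    change ρ _ ≤ ρ _ + ρ _ at h3
    change ρ ((a * FreeGroup.of (e h))⁻¹ * FreeGroup.of (e b)) < ε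
    linarith

theorem isClosed_isBI {G : Type} [Group G] : IsClosed {d : G → G → ℝ | IsBI d} := by
  have : {d : G → G → ℝ | IsBI d} = (⋂ g, {d | d g g = 0}) ∩ (⋂ g, ⋂ h, {d | d g h = d h g}) ∩
      (⋂ g, ⋂ h, ⋂ k, {d | d g k ≤ d g h + d h k}) ∩
      (⋂ g, ⋂ h, ⋂ k, {d | d (k * g) (k * h) = d g h}) ∩
      (⋂ g, ⋂ h, ⋂ k, {d | d (g * k) (h * k) = d g h}) := by
    ext d
    simp only [mem_inter_iff, mem_iInter, mem_ofPred_eq]
    exact ⟨fun h => ⟨⟨⟨⟨h.1, h.2⟩, h.3⟩, h.4⟩, h.5⟩, fun h => ⟨h.1.1.1.1, h.1.1.1.2, h.1.1.2, h.1.2, h.2⟩⟩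
  rw [this]
  refine IsClosed.inter (IsClosed.inter (IsClosed.inter (IsClosed.inter ?_ ?_) ?_) ?_) ?_
  · exact isClosed_iInter fun g => isClosed_eq (by fun_prop) (by fun_prop)
  · exact isClosed_iInter fun g => isClosed_iInter fun h => isClosed_eq (by fun_prop) (by fun_prop)
  · exact isClosed_iInter fun g => isClosed_iInter fun h => isClosed_iInter fun k =>
      isClosed_le (by fun_prop) (by fun_prop)
  · exact isClosed_iInter fun g => isClosed_iInter fun h => isClosed_iInter fun k =>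
      isClosed_eq (by fun_prop) (by fun_prop)
  · exact isClosed_iInter fun g => isClosed_iInter fun h => isClosed_iInter fun k =>
      isClosed_eq (by fun_prop) (by fun_prop)

/-- the space of bi-invariant pseudometrics -/
abbrev PM : Type := {d : FreeGroup ℕ → FreeGroup ℕ → ℝ | IsBI d}

instance : BaireSpace PM := by
  have : PolishSpace PM := isClosed_isBI.polishSpace
  infer_instance

theorem dense_ram (A : Finset (FreeGroup ℕ)) {ε : ℝ} (hε : 0 < ε) (k : ℕ) :
    Dense {p : PM | Ram p.1 A ε k} := by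
  intro d
  choose p hp1 hp2 hp3 using fun F => exists_ram d.2 F A hε k
  refine mem_closure_of_tendsto (b := (atTop : Filter (Finset (FreeGroup ℕ))))
    (f := fun F => (⟨p F, hp1 F⟩ : PM)) ?_ (Eventually.of_forall hp3)
  rw [tendsto_subtype_rng, tendsto_pi_nhds]
  intro g
  rw [tendsto_pi_nhds]
  intro h
  refine tendsto_const_nhds.congr' ?_
  filter_upwards [eventually_ge_atTop ({g} : Finset (FreeGroup ℕ)),
    eventually_ge_atTop ({h} : Finset (FreeGroup ℕ))] with F hg hh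
  exact (hp2 F g (hg (Finset.mem_singleton_self g)) h (hh (Finset.mem_singleton_self h))).symm

theorem dense_sep (g h : FreeGroup ℕ) : Dense {p : PM | g ≠ h → p.1 g h ≠ 0} := by
  classical
  intro d
  have hp : ∀ n : ℕ, IsBI (fun x y => d.1 x y + (1 / ((n : ℝ) + 1)) * if x = y then 0 else 1) := by
    intro n
    have hd : IsBI d.1 := d.2
    have hn : (0 : ℝ) < 1 / ((n : ℝ) + 1) := by positivity
    refine ⟨fun x => by simp [hd.refl], fun x y => by simp only [hd.symm x y, eq_comm],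
      fun x y z => ?_, fun x y z => by simp only [hd.left, mul_right_inj],
      fun x y z => by simp only [hd.right, mul_left_inj]⟩
    have h1 := hd.tri x y z
    have h2 : (if x = z then (0 : ℝ) else 1) ≤ (if x = y then 0 else 1) + (if y = z then 0 else 1) := by
      by_cases h3 : x = y
      · subst h3; simp
      · rw [if_neg h3]
        split_ifs <;> norm_num
    have h3 := mul_le_mul_of_nonneg_left h2 hn.le
    linarith
  refine mem_closure_of_tendsto (b := (atTop : Filter ℕ))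
    (f := fun n => (⟨_, hp n⟩ : PM)) ?_ (Eventually.of_forall fun n hgh => ?_)
  · rw [tendsto_subtype_rng, tendsto_pi_nhds]
    intro x
    rw [tendsto_pi_nhds]
    intro y
    have h1 := (tendsto_one_div_add_atTop_nhds_zero_nat (𝕜 := ℝ)).mul_const
      (if x = y then (0 : ℝ) else 1)
    have h2 := h1.const_add (d.1 x y)
    simpa using h2
  · have hd : IsBI d.1 := d.2
    have h1 := hd.nonneg g h
    have hn : (0 : ℝ) < 1 / ((n : ℝ) + 1) := by positivity
    change d.1 g h + (1 / ((n : ℝ) + 1)) * (if g = h then 0 else 1) ≠ 0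
    rw [if_neg hgh]
    linarith

theorem dense_good : Dense {p : PM | (∀ g h, g ≠ h → p.1 g h ≠ 0) ∧ ExAm p.1} := by
  have h1 : Dense (⋂ x : FreeGroup ℕ × FreeGroup ℕ × Finset (FreeGroup ℕ) × ℕ × ℕ,
      ({p : PM | x.1 ≠ x.2.1 → p.1 x.1 x.2.1 ≠ 0} ∩
        {p : PM | Ram p.1 x.2.2.1 (1 / ((x.2.2.2.1 : ℝ) + 1)) x.2.2.2.2})) := by
    have hop : ∀ g h : FreeGroup ℕ, IsOpen {p : PM | g ≠ h → p.1 g h ≠ 0} := by
      intro g h
      by_cases hgh : g = h
      · simp [hgh]
      · simp only [ne_eq, hgh, not_false_eq_true, forall_true_left]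
        exact isOpen_ne_fun ((continuous_apply h).comp ((continuous_apply g).comp
          continuous_subtype_val)) continuous_const
    refine dense_iInter_of_isOpen (fun x => (hop _ _).inter ?_) (fun x => ?_)
    · exact (isOpen_ram _ _ _).preimage continuous_subtype_val
    · exact (dense_sep _ _).inter_of_isOpen_left (dense_ram _ (by positivity) _) (hop _ _)
  refine h1.mono fun p hp => ?_
  simp only [mem_iInter, mem_inter_iff, mem_ofPred_eq] at hp
  exact ⟨fun g h => (hp (g, h, ∅, 0, 0)).1,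
    ea_of_ram p.2 (fun A n k => (hp (1, 1, A, n, k)).2)⟩

theorem main (P : (FreeGroup ℕ → FreeGroup ℕ → ℝ) → Prop)
    (hP : ∀ d, P d ↔ IsBI d ∧ ∀ g h, g ≠ h → d g h ≠ 0) :
    IsGδ {p : {d // P d} | ExAm p.1} ∧ Dense {p : {d // P d} | ExAm p.1} := by
  constructor
  · have : {p : {d // P d} | ExAm p.1} = ⋂ x : Finset (FreeGroup ℕ) × ℕ × ℕ,
        {p : {d // P d} | Ram p.1 x.1 (1 / ((x.2.1 : ℝ) + 1)) x.2.2} := by
      ext p
      simp only [mem_iInter, mem_ofPred_eq]
      exact ⟨fun h x => ram_of_ea ((hP _).1 p.2).1 h _ (by positivity) _,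
        fun h => ea_of_ram ((hP _).1 p.2).1 (fun A n k => h (A, n, k))⟩
    rw [this]
    exact IsGδ.iInter fun x => ((isOpen_ram _ _ _).preimage continuous_subtype_val).isGδ
  · rw [dense_iff_inter_open]
    rintro U hU ⟨d, hd⟩
    obtain ⟨U', hU', rfl⟩ := isOpen_induced_iff.1 hU
    obtain ⟨p, hp1, hp2⟩ := dense_iff_inter_open.1 dense_good (Subtype.val ⁻¹' U')
      (hU'.preimage continuous_subtype_val) ⟨⟨d.1, ((hP _).1 d.2).1⟩, hd⟩
    exact ⟨⟨p.1, (hP _).2 ⟨p.2, hp2.1⟩⟩, hp1, hp2.2⟩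

end H332Z.EA
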